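import Pool.Agent.H601R3.Final

/-!
There is a complex Banach space `E` for which the linear span of all products of two approximable
operators on `E` is different from the algebra of approximable operators on `E`.
-/

namespace Pool.Agent.Results.MP_d957af_an.ApproximableSquare

/-- `F(E)`: the operator-norm closure of the bounded finite-rank operators on `E`. -/
def approximable (E : Type) [NormedAddCommGroup E] [NormedSpace ℂ E] : Set (E →L[ℂ] E) :=
  closure {S : E →L[ℂ] E | FiniteDimensional ℂ (LinearMap.range S.toLinearMap)}

/-- `A²`: the algebraic linear span of all products `S ∘ T` with `S, T ∈ A`. -/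
def square {E : Type} [NormedAddCommGroup E] [NormedSpace ℂ E] (A : Set (E →L[ℂ] E)) :
    Submodule ℂ (E →L[ℂ] E) :=
  Submodule.span ℂ {W : E →L[ℂ] E | ∃ S ∈ A, ∃ T ∈ A, W = S ∘L T}

/-- The assertion `F(E)² = F(E)`. -/
def SquareEqSelf (E : Type) [NormedAddCommGroup E] [NormedSpace ℂ E] : Prop :=
  (square (approximable E) : Set (E →L[ℂ] E)) = approximable E

/-- There is a complex Banach space `E` with `F(E)² ≠ F(E)`. -/
theorem result : ∃ (E : Type) (_ : NormedAddCommGroup E) (_ : NormedSpace ℂ E)
    (_ : CompleteSpace E), ¬ SquareEqSelf E := by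
  refine ⟨H601R3.PP, inferInstance, inferInstance, inferInstance, fun h => ?_⟩
  obtain ⟨T, hT, hT'⟩ := H601R3.good_main H601R3.PP_good
  have h1 : T ∈ approximable H601R3.PP := hT
  unfold SquareEqSelf at h
  rw [← h] at h1
  exact hT' h1

end Pool.Agent.Results.MP_d957af_an.ApproximableSquare
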